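import Mathlib
import Pool.Agent.H92.SNDefs
import Pool.Agent.H92.SNImage

/-!
# The strong measure zero ideal if its cofinality is small

In ZFC, either `b ≤ cof(SN)`, and then `aleph 1 < cof(SN)`, or every Borel image in the line of
a product of two strong measure zero sets has strong measure zero.
-/

set_option autoImplicit false

open Pool.Agent.H92.SN

namespace Pool.Agent.Results.MP_6906cd_lc.BorelImageDichotomy

theorem result :
    (bounding ≤ cofSN ∧ Cardinal.aleph 1 < cofSN) ∨
      ∀ F : ℝ × ℝ → ℝ, Measurable F → ∀ X Y : Set ℝ,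
        StrongMeasureZero X → StrongMeasureZero Y → StrongMeasureZero (F '' (X ×ˢ Y)) := by
  rcases lt_or_ge cofSN bounding with h | h
  · exact Or.inr (borel_image_of_cof h)
  · refine Or.inl ⟨h, ?_⟩
    rcases aleph_one_lt_or with h1 | h1
    · exact lt_of_lt_of_le h1 h
    · exact h1

end Pool.Agent.Results.MP_6906cd_lc.BorelImageDichotomy
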