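import Mathlib
import Pool.Agent.H92.SNDefs
import Pool.Agent.H92.SNConc

/-!
# A dichotomy for the bounding number and the strong measure zero ideal

In ZFC, `non(SN) < b` or `b < cof(SN)`.  In particular `b = aleph 1` implies
`aleph 1 < cof(SN)`.
-/

set_option autoImplicit false

open Pool.Agent.H92.SN

namespace Pool.Agent.Results.MP_6906cd_lc.BoundingDichotomy

theorem result : nonSN < bounding ∨ bounding < cofSN := by
  rcases lt_or_ge nonSN bounding with h | h
  · exact Or.inl h
  · exact Or.inr (bounding_lt_cofSN h)

end Pool.Agent.Results.MP_6906cd_lc.BoundingDichotomy
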