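import Pool.Agent.H90.SN.FinalD
import Pool.Agent.H90.SN.Inst
import Pool.Agent.H90.SN.Dom

/-!
# Consistency of `cof(SN) = ℵ₁`

All definitions used by the statement are in `Pool/Agent/H90/Frc/Stmt.lean` (first-order formulas of
set theory, satisfaction, models of ZFC, basic vocabulary) and `Pool/Agent/H90/SN/Stmt.lean` (the
statement `SNStatement` about a structure `(M, E)` all of whose quantifiers range over `M`).

The model is a countable generic extension of the universe of small sets (names in `Type 1` over a
partial order in `Type`).  The forcing: first a ccc partial order which makes the bounding number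
larger than `ℵ₁`, then the measurable sets modulo the null sets of an exhaustive submeasure (of
Talagrand's type) on a product along `ω₁ × ω`.
-/

set_option autoImplicit false

namespace Pool.Agent.Results.MP_6906cd_lc.CofSNConsistent

open Pool.Agent.H90.Frc Pool.Agent.H90.SN

/-- There is a sentence `s` of the language of set theory which says, in every structure, that
`cof(SN) = ℵ₁`, and this sentence holds in some model of ZFC. -/
theorem result : ∃ s : Fml 0,
    (∀ (M : Type) (E : M → M → Prop), Sat E s Fin.elim0 ↔ SNStatement E) ∧
    ∃ (M : Type) (E : M → M → Prop), ZFC E ∧ Sat E s Fin.elim0 := by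
  obtain ⟨s, hs⟩ := dfn_snStatement (n := 0)
  obtain ⟨X⟩ := exists_sys exists_base
  obtain ⟨M, E, hz, hE⟩ := exists_model X
  exact ⟨s, fun M E => hs M E _, M, E, hz, (hs M E _).2 hE⟩

end Pool.Agent.Results.MP_6906cd_lc.CofSNConsistent
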